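import Pool.Agent.W945.Lc.Stm

/-!
# CASEONE: the first gate has two inputs which are not used otherwise
-/

namespace Pool.Agent.W576.Lc.CASEONE

open Finset Pool.Agent.W945.Pw Pool.Agent.W945.Lc

theorem avail_of_av {n : ℕ} {g : ℕ → Fn n} {P : ℕ → Prop} {L : List (Fn n)} {a : Fn n}
    (h : Av g P a) (hL : ∀ j, P j → g j ∈ L) : Avail L a := by
  obtain ⟨c, h | h | ⟨j, hj, h⟩⟩ := h
  · exact ⟨c, Or.inl h⟩
  · exact ⟨c, Or.inr (Or.inl h)⟩
  · exact ⟨c, Or.inr (Or.inr ⟨g j, hL j hj, h⟩)⟩

theorem base : BASE.Stm := by
  intro n s g K f hK hch hf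
  have key : ∀ t ≤ s, ∃ L : List (Fn n), IsCircuit L ∧
      L.length + (K.filter (fun j => j < t)).card = t ∧ ∀ j, j < t ∧ j ∉ K → g j ∈ L := by
    intro t
    induction t with
    | zero => intro _; exact ⟨[], IsCircuit.nil, by simp, by intro j hj; omega⟩
    | succ t ih =>
      intro ht
      obtain ⟨L, h1, h2, h3⟩ := ih (by omega)
      by_cases htK : t ∈ K
      · refine ⟨L, h1, ?_, ?_⟩
        · have h4 : K.filter (fun j => j < t + 1) = insert t (K.filter (fun j => j < t)) := by
            ext j
            simp only [mem_filter, mem_insert]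
            constructor
            · rintro ⟨a, b⟩
              by_cases e : j = t
              · exact Or.inl e
              · exact Or.inr ⟨a, by omega⟩
            · rintro (rfl | ⟨a, b⟩)
              · exact ⟨htK, by omega⟩
              · exact ⟨a, by omega⟩
          rw [h4, card_insert_of_notMem (by simp)]
          omega
        · rintro j ⟨hj, hjK⟩
          have h4 : j ≠ t := by
            rintro rfl
            exact hjK htK
          exact h3 j ⟨by omega, hjK⟩
      · obtain ⟨a, b, ha, hb, hab⟩ := hch t (by omega) htK
        refine ⟨(fun x => a x && b x) :: L,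
          IsCircuit.and L a b h1 (avail_of_av ha h3) (avail_of_av hb h3), ?_, ?_⟩
        · have h4 : K.filter (fun j => j < t + 1) = K.filter (fun j => j < t) := by
            ext j
            simp only [mem_filter]
            constructor
            · rintro ⟨a, b⟩
              have h5 : j ≠ t := by
                rintro rfl
                exact htK a
              exact ⟨a, by omega⟩
            · rintro ⟨a, b⟩
              exact ⟨a, by omega⟩
          rw [h4, List.length_cons]
          omega
        · rintro j ⟨hj, hjK⟩
          by_cases e : j = t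
          · subst e
            have h4 : g j = fun x => a x && b x := funext hab
            rw [h4]
            exact List.mem_cons_self
          · exact List.mem_cons_of_mem _ (h3 j ⟨by omega, hjK⟩)
  obtain ⟨L, h1, h2, h3⟩ := key s le_rfl
  have hKs : K.filter (fun j => j < s) = K := filter_true_of_mem (fun j hj => mem_range.1 (hK hj))
  rw [hKs] at h2
  exact ⟨L, h1, by omega, avail_of_av hf h3⟩

theorem av_node {n k : ℕ} {g : ℕ → Fn n} (v : Node n) (hv : v.Before k) (c : Bool) :
    Av g (fun j => j < k) (fun x => xor (v.fn g x) c) := by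
  cases v with
  | inp l => exact ⟨c, Or.inr (Or.inl ⟨l, fun x => rfl⟩)⟩
  | gt l => exact ⟨c, Or.inr (Or.inr ⟨l, hv, fun x => rfl⟩)⟩

theorem chain_of {n s : ℕ} (W : Wired n s) (h : ℕ → Fn n)
    (h0 : ∃ a, Av h (fun j => j < 0) a ∧ ∀ x, h 0 x = a x)
    (hr : ∀ k, 0 < k → k < s → ∀ x,
      h k x = (xor ((W.A k).fn h x) (W.α k) && xor ((W.B k).fn h x) (W.β k))) : Chain s h := by
  intro k hk
  by_cases hk0 : k = 0
  · subst hk0
    obtain ⟨a, ha, hx⟩ := h0
    exact ⟨a, fun _ => true, ha, ⟨true, Or.inl (fun _ => rfl)⟩, fun x => by rw [hx x, Bool.and_true]⟩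
  · exact ⟨_, _, av_node (W.A k) (W.hA k hk) (W.α k), av_node (W.B k) (W.hB k hk) (W.β k),
      hr k (by omega) hk⟩

theorem triv {n s : ℕ} (W : Wired n s) (l m : ℕ) (hms : m < s) (hu : W.Uses m (.gt l)) :
    ∃ c₁ : Bool, ∀ h : ℕ → Fn n,
      (∀ x, h m x = (xor ((W.A m).fn h x) (W.α m) && xor ((W.B m).fn h x) (W.β m))) →
      ∀ e : Bool, (∀ x, h l x = e) →
        Av h (fun j => j < m) (h m) ∧ (e = c₁ → ∀ x, h m x = false) := by
  rcases hu with hu | hu
  · refine ⟨W.α m, ?_⟩
    intro h hr e he
    have h1 : ∀ x, h m x = (xor e (W.α m) && xor ((W.B m).fn h x) (W.β m)) := by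
      intro x
      rw [hr x, hu]
      show (xor (h l x) (W.α m) && _) = _
      rw [he x]
    by_cases hc : e = W.α m
    · have h2 : ∀ x, h m x = false := by
        intro x
        rw [h1 x, hc]
        simp
      exact ⟨⟨false, Or.inl h2⟩, fun _ => h2⟩
    · have h2 : xor e (W.α m) = true := by
        revert hc
        cases e <;> cases W.α m <;> simp
      have h3 : h m = fun x => xor ((W.B m).fn h x) (W.β m) := by
        funext x
        rw [h1 x, h2, Bool.true_and]
      refine ⟨?_, fun h4 => absurd h4 hc⟩
      have h4 := av_node (g := h) (W.B m) (W.hB m hms) (W.β m)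
      rw [← h3] at h4
      exact h4
  · refine ⟨W.β m, ?_⟩
    intro h hr e he
    have h1 : ∀ x, h m x = (xor ((W.A m).fn h x) (W.α m) && xor e (W.β m)) := by
      intro x
      rw [hr x, hu]
      show (_ && xor (h l x) (W.β m)) = _
      rw [he x]
    by_cases hc : e = W.β m
    · have h2 : ∀ x, h m x = false := by
        intro x
        rw [h1 x, hc]
        simp
      exact ⟨⟨false, Or.inl h2⟩, fun _ => h2⟩
    · have h2 : xor e (W.β m) = true := by
        revert hc
        cases e <;> cases W.β m <;> simp
      have h3 : h m = fun x => xor ((W.A m).fn h x) (W.α m) := by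
        funext x
        rw [h1 x, h2, Bool.and_true]
      refine ⟨?_, fun h4 => absurd h4 hc⟩
      have h4 := av_node (g := h) (W.A m) (W.hA m hms) (W.α m)
      rw [← h3] at h4
      exact h4

theorem main : CASEONE.Stm := by
  intro hDEL n s W F γ hmin i j hij hA0 hB0 hno
  have hD := hDEL base n s
  have hs : 1 ≤ s := hmin.pos
  obtain ⟨σ, hσ⟩ : ∃ σ : (Fin n → Bool) → (Fin n → Bool), ∀ x, σ x =
    Function.update (Function.update x i (xor (x i) (W.α 0))) j (!W.β 0) := ⟨_, fun _ => rfl⟩
  have hσi : ∀ x, σ x i = xor (x i) (W.α 0) := by
    intro x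
    rw [hσ, Function.update_of_ne hij, Function.update_self]
  have hσj : ∀ x, σ x j = !W.β 0 := by
    intro x
    rw [hσ, Function.update_self]
  have hσl : ∀ x l, l ≠ i → l ≠ j → σ x l = x l := by
    intro x l h1 h2
    rw [hσ, Function.update_of_ne h2, Function.update_of_ne h1]
  obtain ⟨g', hg'⟩ : ∃ g' : ℕ → Fn n, ∀ k x, g' k x = W.g k (σ x) := ⟨fun k x => W.g k (σ x),
    fun _ _ => rfl⟩
  have hg0 : ∀ x, W.g 0 x = (xor (x i) (W.α 0) && xor (x j) (W.β 0)) := by
    intro x
    have h1 := W.rule 0 hs x
    rw [hA0, hB0] at h1
    exact h1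
  have hg'0 : ∀ x, g' 0 x = x i := by
    intro x
    rw [hg', hg0, hσi, hσj]
    cases x i <;> cases W.α 0 <;> cases W.β 0 <;> rfl
  have hnode : ∀ k, 0 < k → k < s → ∀ v : Node n, W.Uses k v → ∀ x,
      v.fn W.g (σ x) = v.fn g' x := by
    intro k hk hks v hv x
    cases v with
    | inp l =>
      show σ x l = x l
      apply hσl
      · rintro rfl
        exact (hno k hk hks).1 hv
      · rintro rfl
        exact (hno k hk hks).2 hv
    | gt l => exact (hg' l x).symm
  have hrule : ∀ k, 0 < k → k < s → ∀ x,
      g' k x = (xor ((W.A k).fn g' x) (W.α k) && xor ((W.B k).fn g' x) (W.β k)) := by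
    intro k hk hks x
    rw [hg', W.rule k hks (σ x), hnode k hk hks (W.A k) (Or.inl rfl) x,
      hnode k hk hks (W.B k) (Or.inr rfl) x]
  have hF' : ∀ x, F (σ x) = xor (g' (s - 1) x) γ := by
    intro x
    rw [hmin.out, hg']
  have hgx : ∀ k, k < s → ∀ x, W.g k x = g' k (Function.update x i (W.g 0 x)) := by
    intro k
    induction k using Nat.strong_induction_on with
    | _ k ih =>
      intro hks x
      by_cases hk : k = 0
      · subst hk
        rw [hg'0, Function.update_self]
      · have hk0 : 0 < k := by omega
        have hn : ∀ v : Node n, W.Uses k v → v.Before k →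
            v.fn W.g x = v.fn g' (Function.update x i (W.g 0 x)) := by
          intro v hv hb
          cases v with
          | inp l =>
            show x l = Function.update x i (W.g 0 x) l
            rw [Function.update_of_ne]
            rintro rfl
            exact (hno k hk0 hks).1 hv
          | gt l => exact ih l hb (lt_trans hb hks) x
        rw [W.rule k hks x, hrule k hk0 hks, hn (W.A k) (Or.inl rfl) (W.hA k hks),
          hn (W.B k) (Or.inr rfl) (W.hB k hks)]
  have h5 : ∃ c₁ : Bool, ∀ c, Drop (res (fun x => F (σ x)) i c) s (2 + if c = c₁ then 1 else 0) := by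
    by_cases hs1 : s = 1
    · refine ⟨false, fun c => Or.inl ⟨xor c γ, ?_⟩⟩
      intro x
      show F (σ (Function.update x i c)) = _
      have h1 : s - 1 = 0 := by omega
      rw [hF', h1, hg'0, Function.update_self]
    · obtain ⟨l, hls, hul⟩ := hmin.used 0 (by omega)
      have hl0 : 0 < l := by
        rcases Nat.eq_zero_or_pos l with h | h
        · exfalso
          subst h
          rcases hul with h | h
          · rw [hA0] at h
            cases h
          · rw [hB0] at h
            cases h
        · exact h
      obtain ⟨c₁, hc₁⟩ := triv W 0 l hls hul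
      refine ⟨c₁, fun c => ?_⟩
      obtain ⟨h, hh⟩ : ∃ h : ℕ → Fn n, ∀ k x, h k x = g' k (Function.update x i c) :=
        ⟨fun k x => g' k (Function.update x i c), fun _ _ => rfl⟩
      have hh0 : ∀ x, h 0 x = c := by
        intro x
        rw [hh, hg'0, Function.update_self]
      have hhr : ∀ k, 0 < k → k < s → ∀ x,
          h k x = (xor ((W.A k).fn h x) (W.α k) && xor ((W.B k).fn h x) (W.β k)) := by
        intro k hk hks x
        have hn : ∀ v : Node n, W.Uses k v →
            v.fn g' (Function.update x i c) = v.fn h x := by
          intro v hv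
          cases v with
          | inp m =>
            show Function.update x i c m = x m
            rw [Function.update_of_ne]
            rintro rfl
            exact (hno k hk hks).1 hv
          | gt m => exact (hh m x).symm
        rw [hh, hrule k hk hks, hn (W.A k) (Or.inl rfl), hn (W.B k) (Or.inr rfl)]
      have hch : Chain s h := chain_of W h ⟨fun _ => c, ⟨c, Or.inl (fun _ => rfl)⟩, hh0⟩ hhr
      have hav0 : Av h (fun j => j < 0) (h 0) := ⟨c, Or.inl hh0⟩
      have hres : ∀ x, res (fun x => F (σ x)) i c x = xor (h (s - 1) x) γ := by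
        intro x
        show F (σ (Function.update x i c)) = _
        rw [hF', hh]
      have hout : Av h (fun j => j < s) (res (fun x => F (σ x)) i c) :=
        ⟨γ, Or.inr (Or.inr ⟨s - 1, by omega, hres⟩)⟩
      obtain ⟨hl1, hl2⟩ := hc₁ h (hhr l hl0 hls) c hh0
      by_cases hcc : c = c₁
      · rw [if_pos hcc]
        have hlf := hl2 hcc
        by_cases hconst : ∃ b, ∀ x, res (fun x => F (σ x)) i c x = b
        · exact Or.inl hconst
        · have hl3 : l + 1 < s := by
            by_contra hcon
            have h1 : s - 1 = l := by omega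
            apply hconst
            refine ⟨xor false γ, fun x => ?_⟩
            rw [hres x, h1, hlf x]
          obtain ⟨l', hls', hul'⟩ := hmin.used l hl3
          have hll' : l < l' := by
            rcases hul' with h1 | h1
            · have h2 := W.hA l' hls'
              rw [h1] at h2
              exact h2
            · have h2 := W.hB l' hls'
              rw [h1] at h2
              exact h2
          obtain ⟨c₂, hc₂⟩ := triv W l l' hls' hul'
          obtain ⟨hl4, -⟩ := hc₂ h (hhr l' (by omega) hls') false hlf
          refine Or.inr ⟨s - 3, ?_, by omega⟩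
          have h1 := hD h {0, l, l'} (res (fun x => F (σ x)) i c) (by
            intro m hm
            simp only [mem_insert, mem_singleton] at hm
            rw [mem_range]
            omega) hch (by
            intro m hm
            simp only [mem_insert, mem_singleton] at hm
            rcases hm with rfl | rfl | rfl
            · exact hav0
            · exact hl1
            · exact hl4) hout
          have h2 : ({0, l, l'} : Finset ℕ).card = 3 := by
            rw [card_insert_of_notMem, card_insert_of_notMem, card_singleton]
            · simp only [mem_singleton]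
              omega
            · simp only [mem_insert, mem_singleton]
              omega
          rw [h2] at h1
          exact h1
      · rw [if_neg hcc]
        refine Or.inr ⟨s - 2, ?_, by omega⟩
        have h1 := hD h {0, l} (res (fun x => F (σ x)) i c) (by
          intro m hm
          simp only [mem_insert, mem_singleton] at hm
          rw [mem_range]
          omega) hch (by
          intro m hm
          simp only [mem_insert, mem_singleton] at hm
          rcases hm with rfl | rfl
          · exact hav0
          · exact hl1) hout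
        have h2 : ({0, l} : Finset ℕ).card = 2 := by
          rw [card_insert_of_notMem, card_singleton]
          simp only [mem_singleton]
          omega
        rw [h2] at h1
        exact h1
  obtain ⟨c₁, h5⟩ := h5
  refine ⟨fun x => F (σ x), c₁, ?_, ?_, ?_, ?_, h5⟩
  · intro x
    show F x = F (σ _)
    rw [hF', hmin.out, hgx (s - 1) (by omega) x, hg0 x]
  · intro x
    show F (σ x) = _
    rw [hσ]
  · intro x b
    show F (σ (Function.update x j b)) = F (σ x)
    congr 1
    funext l
    by_cases h1 : l = j
    · subst h1
      rw [hσj, hσj]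
    · by_cases h2 : l = i
      · subst h2
        rw [hσi, hσi, Function.update_of_ne h1]
      · rw [hσl _ _ h2 h1, hσl _ _ h2 h1, Function.update_of_ne h1]
  · have h1 := hD g' {0} (fun x => F (σ x)) (by
      intro m hm
      rw [mem_singleton] at hm
      rw [mem_range]
      omega) (chain_of W g' ⟨fun x => x i, ⟨false, Or.inr (Or.inl ⟨i, fun x => by simp⟩)⟩, hg'0⟩ hrule)
      (by
        intro m hm
        rw [mem_singleton] at hm
        subst hm
        exact ⟨false, Or.inr (Or.inl ⟨i, fun x => by rw [hg'0]; simp⟩)⟩)
      ⟨γ, Or.inr (Or.inr ⟨s - 1, by omega, hF'⟩)⟩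
    rw [card_singleton] at h1
    exact h1

end Pool.Agent.W576.Lc.CASEONE
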